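import Mathlib
import Pool.Agent.Q71.DN.Defs

/-!
# Project DN: DN-2 (helper237)
-/

set_option autoImplicit false

namespace Pool.Agent.Q237.DN

open Finset Module Pool.Agent.Q71.DN

/-- Splitting off the first coordinate. -/
theorem sum_pi_succ {M : Type} [AddCommMonoid M] {c : ℕ} (s : Fin (c + 1) → Finset ℕ)
    (f : (Fin (c + 1) → ℕ) → M) :
    ∑ n ∈ Fintype.piFinset s, f n =
      ∑ a ∈ s 0, ∑ n ∈ Fintype.piFinset (fun j => s (Fin.succ j)),
        f (Fin.cons (α := fun _ => ℕ) a n) := by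
  rw [← Finset.sum_product']
  refine Finset.sum_nbij' (fun n => (n 0, fun j => n (Fin.succ j)))
    (fun x => Fin.cons (α := fun _ => ℕ) x.1 x.2) ?_ ?_ ?_ ?_ ?_
  · intro n hn
    rw [Fintype.mem_piFinset] at hn
    rw [Finset.mem_product, Fintype.mem_piFinset]
    exact ⟨hn 0, fun j => hn _⟩
  · rintro ⟨a, n⟩ hx
    rw [Finset.mem_product, Fintype.mem_piFinset] at hx
    rw [Fintype.mem_piFinset]
    intro j
    refine Fin.cases ?_ (fun i => ?_) j
    · rw [Fin.cons_zero]
      exact hx.1
    · rw [Fin.cons_succ]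
      exact hx.2 i
  · intro n _
    exact Fin.cons_self_tail n
  · rintro ⟨a, n⟩ _
    simp only [Fin.cons_zero, Fin.cons_succ]
  · intro n _
    congr 1
    exact (Fin.cons_self_tail n).symm

/-- Iterated sums. -/
def Es : ℕ → (ℕ → ℝ) → ℕ → ℝ
  | 0, g, z => g z
  | c + 1, g, z => ∑ b ∈ range (z + 1), Es c g b

theorem Es_succ (c : ℕ) (g : ℕ → ℝ) (z : ℕ) : Es (c + 1) g z = ∑ b ∈ range (z + 1), Es c g b :=
  rfl

theorem box (g : ℕ → ℝ) (c : ℕ) : ∀ (y : ℕ) (ν : Fin c → ℕ), (∀ j, y ≤ ν j) →
    ∑ n ∈ (Fintype.piFinset fun j => range (ν j + 1)).filter (fun n => ∑ j, n j ≤ y),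
      g (y - ∑ j, n j) = Es c g y := by
  induction c with
  | zero =>
    intro y ν _
    have h1 : (Fintype.piFinset fun j : Fin 0 => range (ν j + 1)) = {fun j => j.elim0} := by
      ext n
      rw [Fintype.mem_piFinset, Finset.mem_singleton]
      constructor
      · intro _
        funext j
        exact j.elim0
      · intro _ j
        exact j.elim0
    rw [h1, Finset.sum_filter, Finset.sum_singleton, Finset.univ_eq_empty, Finset.sum_empty,
      if_pos (Nat.zero_le _), Nat.sub_zero]
    rfl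
  | succ c ih =>
    intro y ν hν
    rw [Finset.sum_filter, sum_pi_succ, Es_succ]
    have h1 : ∀ a ∈ range (ν 0 + 1), (∑ n ∈ Fintype.piFinset (fun j : Fin c =>
        range (ν (Fin.succ j) + 1)), if ∑ j, (Fin.cons (α := fun _ => ℕ) a n : Fin (c + 1) → ℕ) j ≤ y
          then g (y - ∑ j, (Fin.cons (α := fun _ => ℕ) a n : Fin (c + 1) → ℕ) j) else 0) =
        if a ≤ y then Es c g (y - a) else 0 := by
      intro a _
      by_cases ha : a ≤ y
      · rw [if_pos ha, ← ih (y - a) (fun j => ν (Fin.succ j))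
          (fun j => (Nat.sub_le _ _).trans (hν _)), Finset.sum_filter]
        refine Finset.sum_congr rfl fun n _ => ?_
        rw [Fin.sum_univ_succ, Fin.cons_zero]
        simp only [Fin.cons_succ]
        by_cases hn : a + ∑ j, n j ≤ y
        · rw [if_pos hn, if_pos (by omega), Nat.sub_add_eq]
        · rw [if_neg hn, if_neg (by omega)]
      · rw [if_neg ha]
        refine Finset.sum_eq_zero fun n _ => ?_
        rw [Fin.sum_univ_succ, Fin.cons_zero, if_neg (by omega)]
    rw [Finset.sum_congr rfl h1, ← Finset.sum_filter]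
    have h2 : (range (ν 0 + 1)).filter (fun a => a ≤ y) = range (y + 1) := by
      ext a
      rw [Finset.mem_filter, Finset.mem_range, Finset.mem_range]
      have := hν 0
      omega
    rw [h2, ← Finset.sum_range_reflect]
    refine Finset.sum_congr rfl fun a ha => ?_
    rw [Finset.mem_range] at ha
    congr 1
    omega

/-- The box sum over the upper layers. -/
theorem box2 (g : ℕ → ℝ) (c P z ℓ : ℕ) (hz : z ≤ P) (hℓ : ℓ + z = (c + 1) * P)
    (ν : Fin (c + 1) → ℕ) (hν : ∀ j, ν j ≤ P) :
    ∑ n ∈ (idx c P).filter (fun n => ℓ ≤ (∑ j, n j) ∧ ∀ j, n j ≤ ν j), g ((∑ j, n j) - ℓ) =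
      if ℓ ≤ ∑ j, ν j then Es (c + 1) g ((∑ j, ν j) - ℓ) else 0 := by
  by_cases h : ℓ ≤ ∑ j, ν j
  · rw [if_pos h]
    have hy : ∀ j, (∑ j, ν j) - ℓ ≤ ν j := by
      intro j
      have h1 : ∑ i ∈ univ.erase j, ν i ≤ c * P := by
        calc ∑ i ∈ univ.erase j, ν i ≤ ∑ _i ∈ univ.erase j, P :=
              Finset.sum_le_sum fun i _ => hν i
          _ = c * P := by
              rw [Finset.sum_const, Finset.card_erase_of_mem (Finset.mem_univ _),
                Finset.card_univ, Fintype.card_fin, smul_eq_mul, Nat.add_sub_cancel]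
      have h2 := Finset.add_sum_erase univ ν (Finset.mem_univ j)
      rw [Nat.succ_mul] at hℓ
      omega
    rw [← box g (c + 1) ((∑ j, ν j) - ℓ) ν hy]
    refine Finset.sum_nbij' (fun n j => ν j - n j) (fun n j => ν j - n j) ?_ ?_ ?_ ?_ ?_
    · intro n hn
      rw [Finset.mem_filter] at hn
      obtain ⟨-, h1, h2⟩ := hn
      have h3 : ∑ j, (ν j - n j) + ∑ j, n j = ∑ j, ν j := by
        rw [← Finset.sum_add_distrib]
        exact Finset.sum_congr rfl fun j _ => Nat.sub_add_cancel (h2 j)
      rw [Finset.mem_filter, Fintype.mem_piFinset]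
      refine ⟨fun j => ?_, ?_⟩
      · rw [Finset.mem_range]
        omega
      · change ∑ j, (ν j - n j) ≤ _
        omega
    · intro n hn
      rw [Finset.mem_filter, Fintype.mem_piFinset] at hn
      obtain ⟨h1, h2⟩ := hn
      have h1' : ∀ j, n j ≤ ν j := fun j => by
        have := Finset.mem_range.1 (h1 j)
        omega
      have h3 : ∑ j, (ν j - n j) + ∑ j, n j = ∑ j, ν j := by
        rw [← Finset.sum_add_distrib]
        exact Finset.sum_congr rfl fun j _ => Nat.sub_add_cancel (h1' j)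
      rw [Finset.mem_filter, idx, Fintype.mem_piFinset]
      refine ⟨fun j => ?_, ?_, fun j => Nat.sub_le _ _⟩
      · rw [Finset.mem_range]
        have := hν j
        omega
      · change ℓ ≤ ∑ j, (ν j - n j)
        omega
    · intro n hn
      rw [Finset.mem_filter] at hn
      funext j
      exact Nat.sub_sub_self (hn.2.2 j)
    · intro n hn
      rw [Finset.mem_filter, Fintype.mem_piFinset] at hn
      funext j
      have := Finset.mem_range.1 (hn.1 j)
      exact Nat.sub_sub_self (by omega)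
    · intro n hn
      rw [Finset.mem_filter] at hn
      obtain ⟨-, h1, h2⟩ := hn
      have h3 : ∑ j, (ν j - n j) + ∑ j, n j = ∑ j, ν j := by
        rw [← Finset.sum_add_distrib]
        exact Finset.sum_congr rfl fun j _ => Nat.sub_add_cancel (h2 j)
      change g _ = g (_ - ∑ j, (ν j - n j))
      congr 1
      omega
  · rw [if_neg h]
    refine Finset.sum_eq_zero fun n hn => ?_
    rw [Finset.mem_filter] at hn
    exact absurd (hn.2.1.trans (Finset.sum_le_sum fun j _ => hn.2.2 j)) h

/-- The alternating sign. -/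
def sg (j : ℕ) : ℝ := (-1 : ℝ) ^ j

theorem E1 (z : ℕ) : Es 1 sg z = if Even z then 1 else 0 := by
  induction z with
  | zero => simp [Es, sg]
  | succ z ih =>
    rw [Es_succ] at ih ⊢
    rw [Finset.sum_range_succ, ih]
    change _ + (-1 : ℝ) ^ (z + 1) = _
    by_cases h : Even z
    · rw [if_pos h, if_neg (by rw [Nat.even_add_one]; exact not_not.2 h), pow_succ, h.neg_one_pow]
      norm_num
    · rw [if_neg h, if_pos (by rw [Nat.even_add_one]; exact h), pow_succ,
        (Nat.not_even_iff_odd.1 h).neg_one_pow]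
      norm_num

theorem E_nn (c z : ℕ) : 0 ≤ Es (c + 1) sg z := by
  induction c generalizing z with
  | zero =>
    rw [E1]
    split_ifs
    · exact zero_le_one
    · exact le_refl _
  | succ c ih =>
    rw [Es_succ]
    exact Finset.sum_nonneg fun b _ => ih b

theorem E_lb (c y M : ℕ) (h : 2 * (c + 1) * M ≤ y) : ((M + 1 : ℕ) : ℝ) ^ (c + 1) ≤ Es (c + 2) sg y := by
  induction c generalizing y with
  | zero =>
    rw [Es_succ, zero_add, pow_one]
    have h1 : ∑ i ∈ (range (M + 1)).image (fun i => 2 * i), Es 1 sg i ≤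
        ∑ b ∈ range (y + 1), Es 1 sg b := by
      refine Finset.sum_le_sum_of_subset_of_nonneg ?_ fun i _ _ => E_nn 0 i
      intro i hi
      rw [Finset.mem_image] at hi
      obtain ⟨a, ha, rfl⟩ := hi
      rw [Finset.mem_range] at ha ⊢
      omega
    rw [Finset.sum_image (fun a _ b _ hab => by
      have : 2 * a = 2 * b := hab
      omega)] at h1
    refine le_trans (le_of_eq ?_) h1
    have h2 : ∀ i ∈ range (M + 1), Es 1 sg (2 * i) = 1 := by
      intro i _
      rw [E1, if_pos (even_two_mul i)]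
    rw [Finset.sum_congr rfl h2, Finset.sum_const, Finset.card_range, nsmul_eq_mul, mul_one]
  | succ c ih =>
    rw [Es_succ]
    have h1 : ∑ i ∈ (range (M + 1)).image (fun i => y - 2 * i), Es (c + 2) sg i ≤
        ∑ b ∈ range (y + 1), Es (c + 2) sg b := by
      refine Finset.sum_le_sum_of_subset_of_nonneg ?_ fun i _ _ => E_nn (c + 1) i
      intro i hi
      rw [Finset.mem_image] at hi
      obtain ⟨a, ha, rfl⟩ := hi
      rw [Finset.mem_range] at ha ⊢
      omega
    have h0 : 2 * (c + 1) * M + 2 * M ≤ y := by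
      refine le_trans (le_of_eq ?_) h
      ring
    rw [Finset.sum_image (fun a ha b hb hab => by
      have h3 : y - 2 * a = y - 2 * b := hab
      rw [Finset.mem_coe, Finset.mem_range] at ha hb
      omega)] at h1
    refine le_trans ?_ h1
    have h2 : ∀ i ∈ range (M + 1), ((M + 1 : ℕ) : ℝ) ^ (c + 1) ≤ Es (c + 2) sg (y - 2 * i) := by
      intro i hi
      rw [Finset.mem_range] at hi
      refine ih _ ?_
      omega
    calc ((M + 1 : ℕ) : ℝ) ^ (c + 1 + 1) = ∑ _i ∈ range (M + 1), ((M + 1 : ℕ) : ℝ) ^ (c + 1) := by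
          rw [Finset.sum_const, Finset.card_range, nsmul_eq_mul, pow_succ']
      _ ≤ _ := Finset.sum_le_sum h2

/-- Comparison with a nondecreasing weight between `3/4` and `1`. -/
theorem E_cmp (h : ℕ → ℝ) (hm : ∀ j, h j ≤ h (j + 1)) (h0 : 3 / 4 ≤ h 0) (h1 : ∀ j, h j ≤ 1)
    (c z : ℕ) : (1 / 2 : ℝ) * Es (c + 2) sg z ≤ Es (c + 2) (fun j => sg j * h j) z := by
  have a1 : ∀ i, 3 / 4 ≤ Es 1 (fun j => sg j * h j) (2 * i) := by
    intro i
    induction i with
    | zero => simpa [Es, sg] using h0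
    | succ i ih =>
      have e : Es 1 (fun j => sg j * h j) (2 * (i + 1)) =
          Es 1 (fun j => sg j * h j) (2 * i) + (h (2 * i + 2) - h (2 * i + 1)) := by
        rw [Es_succ, Es_succ, show 2 * (i + 1) + 1 = 2 * i + 1 + 1 + 1 by ring,
          Finset.sum_range_succ, Finset.sum_range_succ]
        change _ + sg _ * h _ + sg _ * h _ = _
        have s1 : sg (2 * i + 1) = -1 := by
          unfold sg
          rw [pow_succ, pow_mul]
          norm_num
        have s2 : sg (2 * i + 1 + 1) = 1 := by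
          unfold sg
          rw [pow_succ, pow_succ, pow_mul]
          norm_num
        rw [s1, s2]
        ring
      rw [e]
      have := hm (2 * i + 1)
      linarith
  have a2 : ∀ z, (1 / 2 : ℝ) * Es 1 sg z + (1 / 4 : ℝ) * sg z ≤
      Es 1 (fun j => sg j * h j) z := by
    intro z
    rcases Nat.even_or_odd' z with ⟨i, rfl | rfl⟩
    · rw [E1, if_pos (even_two_mul i)]
      have s1 : sg (2 * i) = 1 := by
        unfold sg
        rw [pow_mul]
        norm_num
      rw [s1]
      have := a1 i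
      linarith
    · have hodd : ¬ Even (2 * i + 1) := by
        rw [Nat.even_add_one]
        exact not_not.2 (even_two_mul i)
      rw [E1, if_neg hodd]
      have s1 : sg (2 * i + 1) = -1 := by
        unfold sg
        rw [pow_succ, pow_mul]
        norm_num
      have e : Es 1 (fun j => sg j * h j) (2 * i + 1) =
          Es 1 (fun j => sg j * h j) (2 * i) - h (2 * i + 1) := by
        rw [Es_succ, Es_succ, Finset.sum_range_succ]
        change _ + sg _ * h _ = _
        rw [s1]
        ring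
      rw [e, s1]
      have := a1 i
      have := h1 (2 * i + 1)
      linarith
  induction c generalizing z with
  | zero =>
    rw [Es_succ, Es_succ]
    calc (1 / 2 : ℝ) * ∑ b ∈ range (z + 1), Es 1 sg b
        ≤ (1 / 2 : ℝ) * ∑ b ∈ range (z + 1), Es 1 sg b + (1 / 4 : ℝ) * ∑ b ∈ range (z + 1), sg b := by
          have := E_nn 0 z
          rw [Es_succ] at this
          change 0 ≤ ∑ b ∈ range (z + 1), sg b at this
          linarith
      _ = ∑ b ∈ range (z + 1), ((1 / 2 : ℝ) * Es 1 sg b + (1 / 4 : ℝ) * sg b) := by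
          rw [Finset.sum_add_distrib, Finset.mul_sum, Finset.mul_sum]
      _ ≤ _ := Finset.sum_le_sum fun b _ => a2 b
  | succ c ih =>
    rw [Es_succ, Es_succ, Finset.mul_sum]
    exact Finset.sum_le_sum fun b _ => ih b

/-- **DN-2.** -/
theorem t_Alt : StmAlt := by
  intro D P z ℓ hD hz hℓ
  constructor
  · intro ν hν
    have h1 := box2 sg D P z ℓ hz hℓ ν hν
    have h2 : ∑ n ∈ (idx D P).filter (fun n => ℓ ≤ (∑ j, n j) ∧ ∀ j, n j ≤ ν j),
        (-1 : ℝ) ^ (ℓ + ∑ j, n j) =
        ∑ n ∈ (idx D P).filter (fun n => ℓ ≤ (∑ j, n j) ∧ ∀ j, n j ≤ ν j), sg ((∑ j, n j) - ℓ) := by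
      refine Finset.sum_congr rfl fun n hn => ?_
      rw [Finset.mem_filter] at hn
      unfold sg
      rw [show ℓ + ∑ j, n j = 2 * ℓ + ((∑ j, n j) - ℓ) by omega, pow_add, pow_mul]
      norm_num
    rw [h2, h1]
    split_ifs
    · exact E_nn _ _
    · exact le_refl _
  · intro q k hq
    obtain ⟨c, rfl⟩ : ∃ c, D = c + 1 := ⟨D - 1, by omega⟩
    have hq0 : (0 : ℝ) < q := by linarith
    obtain ⟨h, hh⟩ : ∃ h : ℕ → ℝ, h = fun j => 1 - 1 / q ^ (2 + k * j) := ⟨_, rfl⟩
    have h1 := box2 (fun j => sg j * h j) (c + 1) P z ℓ hz hℓ (fun _ => P) (fun _ => le_refl _)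
    have h2 : ∑ n ∈ (idx (c + 1) P).filter (fun n => ℓ ≤ ∑ j, n j),
          (-1 : ℝ) ^ (ℓ + ∑ j, n j) * (1 - 1 / q ^ (2 + k * ((∑ j, n j) - ℓ))) =
        ∑ n ∈ (idx (c + 1) P).filter (fun n => ℓ ≤ (∑ j, n j) ∧ ∀ j, n j ≤ P),
          sg ((∑ j, n j) - ℓ) * h ((∑ j, n j) - ℓ) := by
      have e : (idx (c + 1) P).filter (fun n => ℓ ≤ ∑ j, n j) =
          (idx (c + 1) P).filter (fun n => ℓ ≤ (∑ j, n j) ∧ ∀ j, n j ≤ P) := by
        ext n
        rw [Finset.mem_filter, Finset.mem_filter]
        constructor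
        · rintro ⟨a, b⟩
          refine ⟨a, b, fun j => ?_⟩
          rw [idx, Fintype.mem_piFinset] at a
          have := Finset.mem_range.1 (a j)
          omega
        · rintro ⟨a, b, -⟩
          exact ⟨a, b⟩
      rw [e]
      refine Finset.sum_congr rfl fun n hn => ?_
      rw [Finset.mem_filter] at hn
      unfold sg
      rw [show ℓ + ∑ j, n j = 2 * ℓ + ((∑ j, n j) - ℓ) by omega, pow_add, pow_mul, hh]
      norm_num
    have h3 : ∑ _j : Fin (c + 1 + 1), P = ℓ + z := by
      rw [Finset.sum_const, Finset.card_univ, Fintype.card_fin, smul_eq_mul, hℓ]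
    rw [h2]
    refine le_trans ?_ (le_of_eq h1.symm)
    rw [h3, if_pos (Nat.le_add_right _ _), Nat.add_sub_cancel_left]
    have hpow : ∀ j, (0 : ℝ) < q ^ (2 + k * j) := fun j => pow_pos hq0 _
    refine le_trans ?_ (E_cmp h ?_ ?_ ?_ c z)
    · refine mul_le_mul_of_nonneg_left ?_ (by norm_num)
      refine E_lb c z _ ?_
      exact Nat.mul_div_le z (2 * (c + 1))
    · intro j
      rw [hh]
      have h4 : 1 / q ^ (2 + k * (j + 1)) ≤ 1 / q ^ (2 + k * j) := by
        refine one_div_le_one_div_of_le (hpow j) ?_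
        refine pow_le_pow_right₀ (by linarith) ?_
        rw [Nat.mul_add]
        omega
      change 1 - 1 / q ^ (2 + k * j) ≤ 1 - 1 / q ^ (2 + k * (j + 1))
      linarith
    · rw [hh]
      change 3 / 4 ≤ 1 - 1 / q ^ (2 + k * 0)
      rw [Nat.mul_zero, Nat.add_zero]
      have h4 : 1 / q ^ 2 ≤ 1 / (2 : ℝ) ^ 2 := by
        refine one_div_le_one_div_of_le (by norm_num) ?_
        exact pow_le_pow_left₀ (by norm_num) hq 2
      norm_num at h4 ⊢
      linarith
    · intro j
      rw [hh]
      change 1 - 1 / q ^ (2 + k * j) ≤ 1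
      have : 0 ≤ 1 / q ^ (2 + k * j) := (one_div_pos.2 (hpow j)).le
      linarith

end Pool.Agent.Q237.DN
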