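import Mathlib
import Pool.Agent.Q71.DN.Defs

/-!
# Project DN: DN-3 (helper237)
-/

set_option autoImplicit false

namespace Pool.Agent.Q237.DN

open Finset Module Pool.Agent.Q71.DN

theorem lev_sum {D : ℕ} (a1 : ℕ) (a' : Fin (D + 1) → ℕ) : ∑ j, lev a1 a' j = a1 + ∑ j, a' j := by
  unfold lev
  rw [Fin.sum_univ_succ, Fin.cons_zero]
  simp only [Fin.cons_succ]

theorem lev_all {F : Type} [Field F] {m D : ℕ} (φ : Rows F m D) (a1 : ℕ) (a' : Fin (D + 1) → ℕ)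
    (v : Fin m → F) : (∀ j, ∀ i < lev a1 a' j, φ j i v = 0) ↔
      (∀ i < a1, φ 0 i v = 0) ∧ ∀ j : Fin (D + 1), ∀ i < a' j, φ j.succ i v = 0 := by
  unfold lev
  rw [Fin.forall_fin_succ]
  simp only [Fin.cons_zero, Fin.cons_succ]

open Classical in
/-- For fixed `v` the alternating sum is nonnegative. -/
theorem one_v (h2 : StmAlt) {F : Type} [Field F] {m D : ℕ} (φ : Rows F m D) (hD : 1 ≤ D)
    {k P z ℓ a1 : ℕ} {l' : Fin (D + 1) → ℕ} (hz : z ≤ P) (hℓ : ℓ + z = (D + 1) * P)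
    (v : Fin m → F) (dc : (Fin (D + 1) → ℕ) → ℝ)
    (hdc : ∀ n, dc n = if (∀ i < a1, φ 0 i v = 0) ∧
      ∀ j : Fin (D + 1), ∀ i < l' j + k * n j, φ j.succ i v = 0 then 1 else 0) :
    0 ≤ ∑ n ∈ (idx D P).filter (fun n => ℓ ≤ ∑ j, n j), (-1 : ℝ) ^ (ℓ + ∑ j, n j) * dc n := by
  classical
  by_cases hb : (∀ i < a1, φ 0 i v = 0) ∧ ∀ j : Fin (D + 1), ∀ i < l' j, φ j.succ i v = 0
  · obtain ⟨ν, hν⟩ : ∃ ν : Fin (D + 1) → ℕ, ν = fun j =>
        Nat.findGreatest (fun y => ∀ i < l' j + k * y, φ j.succ i v = 0) P := ⟨_, rfl⟩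
    have hνP : ∀ j, ν j ≤ P := fun j => by rw [hν]; exact Nat.findGreatest_le P
    have hs : ∀ j, ∀ i < l' j + k * ν j, φ j.succ i v = 0 := by
      intro j
      rw [hν]
      exact Nat.findGreatest_spec (P := fun y => ∀ i < l' j + k * y, φ j.succ i v = 0)
        (Nat.zero_le P) (fun i hi => hb.2 j i (by rwa [Nat.mul_zero, Nat.add_zero] at hi))
    have h3 := (h2 D P z ℓ hD hz hℓ).1 ν hνP
    refine h3.trans (le_of_eq ?_)
    have e : (idx D P).filter (fun n => ℓ ≤ (∑ j, n j) ∧ ∀ j, n j ≤ ν j) =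
        ((idx D P).filter (fun n => ℓ ≤ ∑ j, n j)).filter (fun n => ∀ j, n j ≤ ν j) := by
      rw [Finset.filter_filter]
    rw [e, Finset.sum_filter]
    refine Finset.sum_congr rfl fun n hn => ?_
    rw [Finset.mem_filter, idx, Fintype.mem_piFinset] at hn
    rw [hdc n]
    have hiff : (∀ j, n j ≤ ν j) ↔ ((∀ i < a1, φ 0 i v = 0) ∧
        ∀ j : Fin (D + 1), ∀ i < l' j + k * n j, φ j.succ i v = 0) := by
      constructor
      · intro h
        refine ⟨hb.1, fun j i hi => hs j i (lt_of_lt_of_le hi ?_)⟩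
        exact Nat.add_le_add_left (Nat.mul_le_mul_left _ (h j)) _
      · rintro ⟨-, h⟩ j
        rw [hν]
        have := Finset.mem_range.1 (hn.1 j)
        exact Nat.le_findGreatest (by omega) (h j)
    by_cases hc : ∀ j, n j ≤ ν j
    · rw [if_pos hc, if_pos (hiff.1 hc), mul_one]
    · rw [if_neg hc, if_neg (fun h => hc (hiff.2 h)), mul_zero]
  · refine le_of_eq (Finset.sum_eq_zero fun n _ => ?_).symm
    rw [hdc n, if_neg, mul_zero]
    rintro ⟨h3, h4⟩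
    exact hb ⟨h3, fun j i hi => h4 j i (lt_of_lt_of_le hi (Nat.le_add_right _ _))⟩

/-- **DN-3.** -/
theorem t_Phi (h1 : StmKK) (h2 : StmAlt) : StmPhi := by
  classical
  intro F _ _ m D t φ hD ht P z a1 l' hz hs
  obtain ⟨ℓ, hℓ'⟩ : ∃ ℓ, ℓ = (D + 1) * P - z := ⟨_, rfl⟩
  have hPle : P ≤ (D + 1) * P := Nat.le_mul_of_pos_left P (Nat.succ_pos D)
  have hℓ : ℓ + z = (D + 1) * P := by omega
  rw [← hℓ'] at hs ⊢
  have hq2 : 2 ≤ Fintype.card F := Fintype.one_lt_card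
  have hqr : (2 : ℝ) ≤ (Fintype.card F : ℝ) := by exact_mod_cast hq2
  have hq0 : (0 : ℝ) < (Fintype.card F : ℝ) := by linarith
  have hlev : ∀ n : Fin (D + 1) → ℕ, ∑ j, lev a1 (fun j => l' j + (t + 2) * n j) j =
      a1 + ∑ j, l' j + (t + 2) * ∑ j, n j := by
    intro n
    rw [lev_sum, Finset.sum_add_distrib, ← Finset.mul_sum, Nat.add_assoc]
  obtain ⟨N, hN⟩ : ∃ N : (Fin (D + 1) → ℕ) → (Fin m → F) → ℝ, ∀ n v, N n v =
      if (∀ i < a1, φ 0 i v = 0) ∧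
        ∀ j : Fin (D + 1), ∀ i < l' j + (t + 2) * n j, φ j.succ i v = 0 then 1 else 0 :=
    ⟨_, fun _ _ => rfl⟩
  have hkk : ∀ n : Fin (D + 1) → ℕ, (kk φ (lev a1 fun j => l' j + (t + 2) * n j) : ℝ) =
      1 + ∑ v ∈ univ.erase (0 : Fin m → F), N n v := by
    intro n
    have e0 : N n 0 = 1 := by
      rw [hN, if_pos]
      exact ⟨fun i _ => map_zero _, fun j i _ => map_zero _⟩
    rw [← e0, Finset.add_sum_erase univ (N n) (Finset.mem_univ _)]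
    unfold kk
    rw [Finset.card_eq_sum_ones, Finset.sum_filter]
    push_cast
    refine Finset.sum_congr rfl fun v _ => ?_
    rw [hN]
    by_cases hc : (∀ i < a1, φ 0 i v = 0) ∧
        ∀ j : Fin (D + 1), ∀ i < l' j + (t + 2) * n j, φ j.succ i v = 0
    · rw [if_pos hc, if_pos ((lev_all φ a1 _ v).2 hc)]
    · rw [if_neg hc, if_neg (fun h => hc ((lev_all φ a1 _ v).1 h))]
  have hGG : ∀ n ∈ (idx D P).filter (fun n => ℓ ≤ ∑ j, n j),
      (-1 : ℝ) ^ (ℓ + ∑ j, n j) * GG φ (lev a1 fun j => l' j + (t + 2) * n j) =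
      (-1 : ℝ) ^ (ℓ + ∑ j, n j) * (1 - 1 / (Fintype.card F : ℝ) ^ (2 + (t + 2) *
        ((∑ j, n j) - ℓ))) +
      ∑ v ∈ univ.erase (0 : Fin m → F), (-1 : ℝ) ^ (ℓ + ∑ j, n j) * N n v := by
    intro n hn
    rw [Finset.mem_filter] at hn
    unfold GG
    rw [hkk n, hlev n]
    obtain ⟨e, he⟩ : ∃ e, ∑ j, n j = ℓ + e := ⟨(∑ j, n j) - ℓ, by omega⟩
    have h3 : a1 + ∑ j, l' j + (t + 2) * ∑ j, n j = m + (2 + (t + 2) * ((∑ j, n j) - ℓ)) := by
      rw [he, Nat.add_sub_cancel_left, Nat.mul_add]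
      omega
    rw [h3, pow_add (Fintype.card F : ℝ) m, div_mul_eq_div_div, div_self (pow_pos hq0 m).ne',
      ← Finset.mul_sum]
    ring
  have hlow : ∀ n ∈ idx D P, ¬ ℓ ≤ ∑ j, n j →
      (-1 : ℝ) ^ (ℓ + ∑ j, n j) * GG φ (lev a1 fun j => l' j + (t + 2) * n j) = 0 := by
    intro n _ hn
    rw [(h1 F m D φ _).2.1 t ht ?_, mul_zero]
    rw [hlev n]
    obtain ⟨e, he⟩ : ∃ e, ℓ = (∑ j, n j) + 1 + e := ⟨ℓ - (∑ j, n j) - 1, by omega⟩
    rw [he, Nat.mul_add, Nat.mul_add] at hs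
    have : 0 ≤ (t + 2) * e := Nat.zero_le _
    omega
  have hPhi : (-1 : ℝ) ^ ℓ * Phi φ (t + 2) P l' a1 =
      ∑ n ∈ (idx D P).filter (fun n => ℓ ≤ ∑ j, n j),
        (-1 : ℝ) ^ (ℓ + ∑ j, n j) * GG φ (lev a1 fun j => l' j + (t + 2) * n j) := by
    unfold Phi
    rw [Finset.mul_sum, Finset.sum_filter]
    refine Finset.sum_congr rfl fun n hn => ?_
    rw [← mul_assoc, ← pow_add]
    by_cases hc : ℓ ≤ ∑ j, n j
    · rw [if_pos hc]
    · rw [if_neg hc, hlow n hn hc]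
  rw [hPhi, Finset.sum_congr rfl hGG, Finset.sum_add_distrib, Finset.sum_comm]
  have h3 := (h2 D P z ℓ hD hz hℓ).2 (Fintype.card F : ℝ) (t + 2) hqr
  have h4 : 0 ≤ ∑ v ∈ univ.erase (0 : Fin m → F),
      ∑ n ∈ (idx D P).filter (fun n => ℓ ≤ ∑ j, n j), (-1 : ℝ) ^ (ℓ + ∑ j, n j) * N n v :=
    Finset.sum_nonneg fun v _ => one_v h2 φ hD hz hℓ v (fun n => N n v) (fun n => hN n v)
  linarith

end Pool.Agent.Q237.DN
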