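import Mathlib
import Pool.Agent.Q237.DN.Phi

/-!
# Project DN: DN-4 (helper237)
-/

set_option autoImplicit false

namespace Pool.Agent.Q237.DN

open Finset Module Pool.Agent.Q71.DN

theorem alt_range (N : ℕ) : ∑ n ∈ range N, (-1 : ℝ) ^ n = if Even N then 0 else 1 := by
  induction N with
  | zero => simp
  | succ z ih =>
    rw [Finset.sum_range_succ, ih]
    by_cases h : Even z
    · rw [if_pos h, if_neg (by rw [Nat.even_add_one]; exact not_not.2 h), h.neg_one_pow]
      norm_num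
    · rw [if_neg h, if_pos (by rw [Nat.even_add_one]; exact h),
        (Nat.not_even_iff_odd.1 h).neg_one_pow]
      norm_num

section

variable {F : Type} [Field F] {m D : ℕ}

open Classical in
/-- The indicator of the vanishing of the first `a` digits. -/
noncomputable def Zi (φ : Rows F m D) (j : Fin (D + 2)) (a : ℕ) (v : Fin m → F) : ℝ :=
  if ∀ i < a, φ j i v = 0 then 1 else 0

open Classical in
theorem fst_T (φ : Rows F m D) (j : Fin (D + 2)) {k : ℕ} (hk : 1 ≤ k) (l1 : ℕ) (T : Finset ℕ)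
    (v : Fin m → F) :
    (if FstIn φ j (fun i => ∃ n ∈ T, l1 + k * n ≤ i ∧ i < l1 + k * (n + 1)) v then (1 : ℝ) else 0) =
      ∑ n ∈ T, (Zi φ j (l1 + k * n) v - Zi φ j (l1 + k * (n + 1)) v) := by
  by_cases hex : ∃ i, φ j i v ≠ 0
  · obtain ⟨i₀, hi₀, hmin⟩ : ∃ i₀, φ j i₀ v ≠ 0 ∧ ∀ i < i₀, φ j i v = 0 :=
      ⟨Nat.find hex, Nat.find_spec hex, fun i hi => not_not.1 (Nat.find_min hex hi)⟩
    have hF : ∀ S : ℕ → Prop, FstIn φ j S v ↔ S i₀ := by
      intro S
      constructor
      · rintro ⟨i, h1, h2, h3⟩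
        rcases lt_trichotomy i i₀ with h | h | h
        · exact absurd (hmin i h) h2
        · rwa [← h]
        · exact absurd (h3 i₀ h) hi₀
      · intro h
        exact ⟨i₀, h, hi₀, hmin⟩
    have hZ : ∀ a, Zi φ j a v = if a ≤ i₀ then 1 else 0 := by
      intro a
      unfold Zi
      by_cases h : a ≤ i₀
      · rw [if_pos h, if_pos (fun i hi => hmin i (lt_of_lt_of_le hi h))]
      · rw [if_neg h, if_neg (fun h' => hi₀ (h' i₀ (not_le.1 h)))]
    have hd : ∀ n, Zi φ j (l1 + k * n) v - Zi φ j (l1 + k * (n + 1)) v =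
        if l1 + k * n ≤ i₀ ∧ i₀ < l1 + k * (n + 1) then 1 else 0 := by
      intro n
      rw [hZ, hZ]
      have : l1 + k * n ≤ l1 + k * (n + 1) := by
        rw [Nat.mul_add]
        omega
      by_cases h1 : l1 + k * n ≤ i₀
      · by_cases h2 : l1 + k * (n + 1) ≤ i₀
        · rw [if_pos h1, if_pos h2, if_neg (by omega), sub_self]
        · rw [if_pos h1, if_neg h2, if_pos ⟨h1, not_le.1 h2⟩, sub_zero]
      · rw [if_neg h1, if_neg (by omega), if_neg (fun h => h1 h.1), sub_zero]
    rw [Finset.sum_congr rfl fun n _ => hd n]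
    by_cases hc : ∃ n ∈ T, l1 + k * n ≤ i₀ ∧ i₀ < l1 + k * (n + 1)
    · rw [if_pos ((hF _).2 hc)]
      obtain ⟨n, hn, h1, h2⟩ := hc
      rw [Finset.sum_eq_single n, if_pos ⟨h1, h2⟩]
      · intro n' _ hne
        rw [if_neg]
        rintro ⟨h3, h4⟩
        apply hne
        have h5 : k * n < k * (n' + 1) := by omega
        have h6 : k * n' < k * (n + 1) := by omega
        have h7 := Nat.lt_of_mul_lt_mul_left h5
        have h8 := Nat.lt_of_mul_lt_mul_left h6
        omega
      · intro h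
        exact absurd hn h
    · rw [if_neg (fun h => hc ((hF _).1 h))]
      refine (Finset.sum_eq_zero fun n hn => ?_).symm
      rw [if_neg (fun h => hc ⟨n, hn, h⟩)]
  · push Not at hex
    have hZ : ∀ a, Zi φ j a v = 1 := fun a => if_pos fun i _ => hex i
    rw [if_neg]
    · refine (Finset.sum_eq_zero fun n _ => ?_).symm
      rw [hZ, hZ, sub_self]
    · rintro ⟨i, -, h, -⟩
      exact h (hex i)

open Classical in
theorem fst_On (φ : Rows F m D) (j : Fin (D + 2)) {k L : ℕ} (hk : 1 ≤ k) (l : ℕ)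
    (v : Fin m → F) :
    (if FstIn φ j (On k l (k * (2 * L))) v then (1 : ℝ) else 0) =
      ∑ n ∈ range (2 * L), (-1 : ℝ) ^ n * Zi φ j (l + k * n) v := by
  by_cases hex : ∃ i, φ j i v ≠ 0
  · obtain ⟨i₀, hi₀, hmin⟩ : ∃ i₀, φ j i₀ v ≠ 0 ∧ ∀ i < i₀, φ j i v = 0 :=
      ⟨Nat.find hex, Nat.find_spec hex, fun i hi => not_not.1 (Nat.find_min hex hi)⟩
    have hF : ∀ S : ℕ → Prop, FstIn φ j S v ↔ S i₀ := by
      intro S
      constructor
      · rintro ⟨i, h1, h2, h3⟩
        rcases lt_trichotomy i i₀ with h | h | h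
        · exact absurd (hmin i h) h2
        · rwa [← h]
        · exact absurd (h3 i₀ h) hi₀
      · intro h
        exact ⟨i₀, h, hi₀, hmin⟩
    have hZ : ∀ a, Zi φ j a v = if a ≤ i₀ then 1 else 0 := by
      intro a
      unfold Zi
      by_cases h : a ≤ i₀
      · rw [if_pos h, if_pos (fun i hi => hmin i (lt_of_lt_of_le hi h))]
      · rw [if_neg h, if_neg (fun h' => hi₀ (h' i₀ (not_le.1 h)))]
    by_cases hl : l ≤ i₀
    · obtain ⟨n₀, hn₀⟩ : ∃ n₀, n₀ = (i₀ - l) / k := ⟨_, rfl⟩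
      have hle : ∀ n, l + k * n ≤ i₀ ↔ n ≤ n₀ := by
        intro n
        rw [hn₀, Nat.le_div_iff_mul_le hk, mul_comm n k]
        omega
      have h1 : ∑ n ∈ range (2 * L), (-1 : ℝ) ^ n * Zi φ j (l + k * n) v =
          ∑ n ∈ (range (2 * L)).filter (fun n => n ≤ n₀), (-1 : ℝ) ^ n := by
        rw [Finset.sum_filter]
        refine Finset.sum_congr rfl fun n _ => ?_
        rw [hZ]
        by_cases h : n ≤ n₀
        · rw [if_pos h, if_pos ((hle n).2 h), mul_one]
        · rw [if_neg h, if_neg (fun h' => h ((hle n).1 h')), mul_zero]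
      rw [h1]
      by_cases hb : n₀ < 2 * L
      · have h2 : (range (2 * L)).filter (fun n => n ≤ n₀) = range (n₀ + 1) := by
          ext n
          rw [Finset.mem_filter, Finset.mem_range, Finset.mem_range]
          omega
        rw [h2, alt_range]
        have h3 : i₀ < l + k * (2 * L) := by
          by_contra hcon
          have := (hle (2 * L)).1 (not_lt.1 hcon)
          omega
        by_cases he : Even n₀
        · rw [if_pos ((hF _).2 ⟨hl, h3, by rw [← hn₀]; exact he⟩), if_neg]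
          rw [Nat.even_add_one]
          exact not_not.2 he
        · rw [if_neg, if_pos (by rw [Nat.even_add_one]; exact he)]
          rw [hF]
          rintro ⟨-, -, h5⟩
          rw [← hn₀] at h5
          exact he h5
      · have h2 : (range (2 * L)).filter (fun n => n ≤ n₀) = range (2 * L) := by
          ext n
          rw [Finset.mem_filter, Finset.mem_range]
          omega
        rw [h2, alt_range, if_pos (even_two_mul L), if_neg]
        rw [hF]
        rintro ⟨-, h4, -⟩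
        have := (hle (2 * L)).2 (not_lt.1 hb)
        omega
    · rw [if_neg]
      · refine (Finset.sum_eq_zero fun n _ => ?_).symm
        rw [hZ, if_neg (by omega), mul_zero]
      · rw [hF]
        rintro ⟨h4, -, -⟩
        exact hl h4
  · push Not at hex
    have hZ : ∀ a, Zi φ j a v = 1 := fun a => if_pos fun i _ => hex i
    rw [if_neg]
    · have : ∀ n ∈ range (2 * L), (-1 : ℝ) ^ n * Zi φ j (l + k * n) v = (-1 : ℝ) ^ n :=
        fun n _ => by rw [hZ, mul_one]
      rw [Finset.sum_congr rfl this, alt_range, if_pos (even_two_mul L)]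
    · rintro ⟨i, -, h, -⟩
      exact h (hex i)

theorem kk_Z [Fintype F] (φ : Rows F m D) (a1 : ℕ) (a' : Fin (D + 1) → ℕ) :
    (kk φ (lev a1 a') : ℝ) = ∑ v : Fin m → F, Zi φ 0 a1 v * ∏ j : Fin (D + 1),
      Zi φ j.succ (a' j) v := by
  classical
  unfold kk
  rw [Finset.card_eq_sum_ones, Finset.sum_filter]
  push_cast
  refine Finset.sum_congr rfl fun v _ => ?_
  by_cases hc : (∀ i < a1, φ 0 i v = 0) ∧ ∀ j : Fin (D + 1), ∀ i < a' j, φ j.succ i v = 0
  · rw [if_pos ((lev_all φ a1 a' v).2 hc)]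
    have h1 : Zi φ 0 a1 v = 1 := if_pos hc.1
    have h2 : ∀ j ∈ (univ : Finset (Fin (D + 1))), Zi φ j.succ (a' j) v = 1 :=
      fun j _ => if_pos (hc.2 j)
    rw [h1, Finset.prod_congr rfl h2, Finset.prod_const_one, mul_one]
  · rw [if_neg (fun h => hc ((lev_all φ a1 a' v).1 h))]
    by_cases h1 : ∀ i < a1, φ 0 i v = 0
    · have h2 : ∃ j : Fin (D + 1), ¬ ∀ i < a' j, φ j.succ i v = 0 := by
        by_contra hcon
        push Not at hcon
        exact hc ⟨h1, hcon⟩
      obtain ⟨j, hj⟩ := h2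
      rw [Finset.prod_eq_zero (Finset.mem_univ j) (if_neg hj), mul_zero]
    · have h2 : Zi φ 0 a1 v = 0 := if_neg h1
      rw [h2, zero_mul]

end

/-- **DN-4.** -/
theorem t_Exp : StmExp := by
  classical
  intro F _ _ m D k L l1 φ l' T hk hL
  have hP : 2 * L - 1 + 1 = 2 * L := by omega
  have hq2 : 2 ≤ Fintype.card F := Fintype.one_lt_card
  have hqr : (2 : ℝ) ≤ (Fintype.card F : ℝ) := by exact_mod_cast hq2
  have hq0 : (0 : ℝ) < (Fintype.card F : ℝ) := by linarith
  -- `Phi` as a difference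
  have hPhi : ∀ a1, Phi φ k (2 * L - 1) l' a1 =
      (∑ v : Fin m → F, Zi φ 0 a1 v * ∏ j : Fin (D + 1), ∑ n ∈ range (2 * L),
        (-1 : ℝ) ^ n * Zi φ j.succ (l' j + k * n) v) -
      (Fintype.card F : ℝ) ^ m * (1 / (Fintype.card F : ℝ) ^ a1) *
        ∏ j : Fin (D + 1), ∑ n ∈ range (2 * L), (-1 : ℝ) ^ n /
          (Fintype.card F : ℝ) ^ (l' j + k * n) := by
    intro a1
    have e1 : ∀ v : Fin m → F, (∏ j : Fin (D + 1), ∑ n ∈ range (2 * L),
        (-1 : ℝ) ^ n * Zi φ j.succ (l' j + k * n) v) = ∑ n ∈ idx D (2 * L - 1),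
        (-1 : ℝ) ^ (∑ j, n j) * ∏ j : Fin (D + 1), Zi φ j.succ (l' j + k * n j) v := by
      intro v
      rw [Finset.prod_univ_sum]
      unfold idx
      rw [hP]
      refine Finset.sum_congr rfl fun n _ => ?_
      rw [Finset.prod_mul_distrib, Finset.prod_pow_eq_pow_sum]
    have e2 : (∏ j : Fin (D + 1), ∑ n ∈ range (2 * L), (-1 : ℝ) ^ n /
          (Fintype.card F : ℝ) ^ (l' j + k * n)) = ∑ n ∈ idx D (2 * L - 1),
        (-1 : ℝ) ^ (∑ j, n j) * (1 / (Fintype.card F : ℝ) ^ (∑ j, (l' j + k * n j))) := by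
      rw [Finset.prod_univ_sum]
      unfold idx
      rw [hP]
      refine Finset.sum_congr rfl fun n _ => ?_
      rw [Finset.prod_div_distrib, Finset.prod_pow_eq_pow_sum, Finset.prod_pow_eq_pow_sum,
        div_eq_mul_one_div]
    rw [e2, Finset.sum_congr rfl fun v _ => by rw [e1 v, Finset.mul_sum], Finset.sum_comm,
      Finset.mul_sum, ← Finset.sum_sub_distrib]
    unfold Phi
    refine Finset.sum_congr rfl fun n _ => ?_
    unfold GG
    rw [kk_Z, lev_sum, mul_sub, Finset.mul_sum]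
    congr 1
    · refine Finset.sum_congr rfl fun v _ => ?_
      ring
    · rw [pow_add]
      field_simp
  -- the count
  have hcT : (cT φ k (2 * L - 1) l1 l' T : ℝ) = ∑ v : Fin m → F,
      (∑ n ∈ T, (Zi φ 0 (l1 + k * n) v - Zi φ 0 (l1 + k * (n + 1)) v)) *
        ∏ j : Fin (D + 1), ∑ n ∈ range (2 * L), (-1 : ℝ) ^ n * Zi φ j.succ (l' j + k * n) v := by
    unfold cT
    rw [Finset.card_eq_sum_ones, Finset.sum_filter]
    push_cast
    refine Finset.sum_congr rfl fun v _ => ?_
    rw [← fst_T φ 0 hk l1 T v, Finset.prod_congr rfl fun j _ => (fst_On φ j.succ hk (l' j) v).symm,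
      hP]
    by_cases hc : FstIn φ 0 (fun i => ∃ n ∈ T, l1 + k * n ≤ i ∧ i < l1 + k * (n + 1)) v ∧
        ∀ j : Fin (D + 1), FstIn φ j.succ (On k (l' j) (k * (2 * L))) v
    · rw [if_pos hc, if_pos hc.1, Finset.prod_congr rfl fun j _ => if_pos (hc.2 j),
        Finset.prod_const_one, mul_one]
    · rw [if_neg hc]
      by_cases h1 : FstIn φ 0 (fun i => ∃ n ∈ T, l1 + k * n ≤ i ∧ i < l1 + k * (n + 1)) v
      · have h2 : ∃ j : Fin (D + 1), ¬ FstIn φ j.succ (On k (l' j) (k * (2 * L))) v := by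
          by_contra hcon
          push Not at hcon
          exact hc ⟨h1, hcon⟩
        obtain ⟨j, hj⟩ := h2
        rw [Finset.prod_eq_zero (Finset.mem_univ j) (if_neg hj), mul_zero]
      · rw [if_neg h1, zero_mul]
  rw [hcT]
  unfold vT
  rw [hP]
  simp only [hPhi]
  rw [Finset.sum_congr rfl fun v _ => Finset.sum_mul _ _ _, Finset.sum_comm, Finset.mul_sum,
    Finset.sum_mul, ← Finset.sum_sub_distrib]
  refine Finset.sum_congr rfl fun n _ => ?_
  rw [Finset.sum_congr rfl fun v _ => sub_mul _ _ _, Finset.sum_sub_distrib]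
  ring

end Pool.Agent.Q237.DN
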