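import Mathlib
import Pool.Agent.Q71.DN.Defs

/-!
# Project DN: DN-5 (helper237)
-/

set_option autoImplicit false

namespace Pool.Agent.Q237.DN

open Finset Module Pool.Agent.Q71.DN

/-- The integer with the digits `d 0, …, d (u - 1)` in base `q`. -/
def Nn (q : ℕ) (d : ℕ → ℕ) : ℕ → ℕ
  | 0 => 0
  | u + 1 => q * Nn q d u + d u

theorem Nn_lt {q : ℕ} {d : ℕ → ℕ} (hq : 0 < q) (hd : ∀ i, d i < q) (u : ℕ) :
    Nn q d u < q ^ u := by
  induction u with
  | zero => simp [Nn]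
  | succ u ih =>
    change q * Nn q d u + d u < q ^ (u + 1)
    rw [pow_succ']
    calc q * Nn q d u + d u < q * Nn q d u + q := Nat.add_lt_add_left (hd u) _
      _ = q * (Nn q d u + 1) := by ring
      _ ≤ q * q ^ u := Nat.mul_le_mul_left _ ih

theorem Nn_sum {q : ℕ} {d : ℕ → ℕ} (hq : 0 < q) (u : ℕ) :
    ∑ i ∈ range u, (d i : ℝ) / (q : ℝ) ^ (i + 1) = (Nn q d u : ℝ) / (q : ℝ) ^ u := by
  have hq0 : (q : ℝ) ≠ 0 := by exact_mod_cast hq.ne'
  induction u with
  | zero => simp [Nn]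
  | succ u ih =>
    rw [Finset.sum_range_succ, ih]
    change _ = ((q * Nn q d u + d u : ℕ) : ℝ) / _
    push_cast
    field_simp
    ring

theorem Nn_add {q : ℕ} {d : ℕ → ℕ} (hq : 0 < q) (hd : ∀ i, d i < q) (u w : ℕ) :
    Nn q d u * q ^ w ≤ Nn q d (u + w) ∧ Nn q d (u + w) < (Nn q d u + 1) * q ^ w := by
  induction w with
  | zero => simp
  | succ w ih =>
    obtain ⟨h1, h2⟩ := ih
    change _ ≤ q * Nn q d (u + w) + d (u + w) ∧ q * Nn q d (u + w) + d (u + w) < _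
    constructor
    · calc Nn q d u * q ^ (w + 1) = q * (Nn q d u * q ^ w) := by ring
        _ ≤ q * Nn q d (u + w) := Nat.mul_le_mul_left _ h1
        _ ≤ _ := Nat.le_add_right _ _
    · calc q * Nn q d (u + w) + d (u + w) < q * Nn q d (u + w) + q := Nat.add_lt_add_left (hd _) _
        _ = q * (Nn q d (u + w) + 1) := by ring
        _ ≤ q * ((Nn q d u + 1) * q ^ w) := Nat.mul_le_mul_left _ h2
        _ = _ := by ring

theorem Nn_eq {q : ℕ} {d e : ℕ → ℕ} (hd : ∀ i, d i < q) (he : ∀ i, e i < q) (u : ℕ) :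
    Nn q d u = Nn q e u ↔ ∀ i < u, d i = e i := by
  induction u with
  | zero => simp [Nn]
  | succ u ih =>
    change q * Nn q d u + d u = q * Nn q e u + e u ↔ _
    constructor
    · intro h
      have h1 : Nn q d u = Nn q e u := by
        rcases lt_trichotomy (Nn q d u) (Nn q e u) with h2 | h2 | h2
        · have h3 := Nat.mul_le_mul_left q h2
          have h4 := hd u
          rw [Nat.mul_succ] at h3
          omega
        · exact h2
        · have h3 := Nat.mul_le_mul_left q h2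
          have h4 := he u
          rw [Nat.mul_succ] at h3
          omega
      rw [h1] at h
      intro i hi
      rcases Nat.lt_succ_iff_lt_or_eq.1 hi with h2 | h2
      · exact ih.1 h1 i h2
      · rw [h2]
        omega
    · intro h
      rw [ih.2 fun i hi => h i (hi.trans (Nat.lt_succ_self u)), h u (Nat.lt_succ_self u)]

theorem Nn_lex {q : ℕ} {d e : ℕ → ℕ} (hd : ∀ i, d i < q) (he : ∀ i, e i < q) (u : ℕ) :
    Nn q d u < Nn q e u ↔ ∃ i < u, (∀ i' < i, d i' = e i') ∧ d i < e i := by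
  induction u with
  | zero => simp [Nn]
  | succ u ih =>
    change q * Nn q d u + d u < q * Nn q e u + e u ↔ _
    constructor
    · intro h
      rcases lt_trichotomy (Nn q d u) (Nn q e u) with h2 | h2 | h2
      · obtain ⟨i, hi, h3, h4⟩ := ih.1 h2
        exact ⟨i, hi.trans (Nat.lt_succ_self u), h3, h4⟩
      · rw [h2] at h
        exact ⟨u, Nat.lt_succ_self u, (Nn_eq hd he u).1 h2, by omega⟩
      · exfalso
        have h3 := Nat.mul_le_mul_left q h2
        have h4 := he u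
        rw [Nat.mul_succ] at h3
        omega
    · rintro ⟨i, hi, h1, h2⟩
      rcases Nat.lt_succ_iff_lt_or_eq.1 hi with h3 | h3
      · have h4 := ih.2 ⟨i, h3, h1, h2⟩
        have h5 := Nat.mul_le_mul_left q h4
        have h6 := hd u
        rw [Nat.mul_succ] at h5
        omega
      · subst h3
        rw [(Nn_eq hd he i).2 h1]
        omega

section

variable {F : Type} [Field F] [Fintype F] {m D : ℕ}

/-- The digits as natural numbers. -/
noncomputable def dg (φ : Rows F m D) (ψ : Digs F D) (j : Fin (D + 2)) (v : Fin m → F) (i : ℕ) :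
    ℕ := (ψ j i (φ j i v) : ℕ)

theorem dg_lt (φ : Rows F m D) (ψ : Digs F D) (j : Fin (D + 2)) (v : Fin m → F) (i : ℕ) :
    dg φ ψ j v i < Fintype.card F := (ψ j i (φ j i v)).2

theorem tr_eq (φ : Rows F m D) (ψ : Digs F D) (j : Fin (D + 2)) (u : ℕ) (v : Fin m → F) :
    tr φ ψ j u v = (Nn (Fintype.card F) (dg φ ψ j v) u : ℝ) / (Fintype.card F : ℝ) ^ u := by
  rw [← Nn_sum Fintype.card_pos]
  rfl

/-- Membership of one coordinate in the interval. -/
theorem one_coord (φ : Rows F m D) (ψ : Digs F D) (j : Fin (D + 2)) (v p : Fin m → F)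
    {l u : ℕ} (hl : l ≤ u) (hu : u ≤ m) {y : ℝ} (h1 : tr φ ψ j m v ≤ y)
    (h2 : y < tr φ ψ j m v + 1 / (Fintype.card F : ℝ) ^ m) :
    (tr φ ψ j l p ≤ y ∧ y < tr φ ψ j u p) ↔
      ∃ i, l ≤ i ∧ i < u ∧ (∀ i' < i, dg φ ψ j v i' = dg φ ψ j p i') ∧
        dg φ ψ j v i < dg φ ψ j p i := by
  obtain ⟨q, hq⟩ : ∃ q, q = Fintype.card F := ⟨_, rfl⟩
  have hqp : 0 < q := by rw [hq]; exact Fintype.card_pos
  have hq0 : (0 : ℝ) < (q : ℝ) := by exact_mod_cast hqp
  have hd : ∀ w i, dg φ ψ j w i < q := fun w i => by rw [hq]; exact dg_lt φ ψ j w i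
  rw [tr_eq, ← hq] at h1 h2
  rw [tr_eq, tr_eq, ← hq]
  -- the integers
  have hNl := Nn_add hqp (hd v) l (m - l)
  have hNu := Nn_add hqp (hd v) u (m - u)
  rw [Nat.add_sub_cancel' (hl.trans hu)] at hNl
  rw [Nat.add_sub_cancel' hu] at hNu
  have hsplit : ∀ w ≤ m, (q : ℝ) ^ m = (q : ℝ) ^ w * (q : ℝ) ^ (m - w) := fun w hw => by
    rw [← pow_add, Nat.add_sub_cancel' hw]
  have hml := hsplit l (hl.trans hu)
  have hmu := hsplit u hu
  have e1 : ((Nn q (dg φ ψ j p) l : ℝ) / (q : ℝ) ^ l ≤ y) ↔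
      ¬ (Nn q (dg φ ψ j v) l < Nn q (dg φ ψ j p) l) := by
    constructor
    · intro h hlt
      have h3 : (Nn q (dg φ ψ j p) l : ℝ) / (q : ℝ) ^ l <
          ((Nn q (dg φ ψ j v) m : ℝ) + 1) / (q : ℝ) ^ m := by
        calc _ ≤ y := h
          _ < _ := h2
          _ = _ := by rw [add_div]
      rw [div_lt_div_iff₀ (pow_pos hq0 _) (pow_pos hq0 _), hml] at h3
      have h4 : (Nn q (dg φ ψ j p) l : ℝ) * (q : ℝ) ^ (m - l) < (Nn q (dg φ ψ j v) m : ℝ) + 1 := by
        have h5 : (Nn q (dg φ ψ j p) l : ℝ) * (q : ℝ) ^ (m - l) * (q : ℝ) ^ l <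
            ((Nn q (dg φ ψ j v) m : ℝ) + 1) * (q : ℝ) ^ l := by
          calc _ = (Nn q (dg φ ψ j p) l : ℝ) * ((q : ℝ) ^ l * (q : ℝ) ^ (m - l)) := by ring
            _ < _ := h3
        exact lt_of_mul_lt_mul_right h5 (pow_pos hq0 _).le
      have h6 : Nn q (dg φ ψ j p) l * q ^ (m - l) < Nn q (dg φ ψ j v) m + 1 := by
        exact_mod_cast h4
      have h7 : (Nn q (dg φ ψ j v) l + 1) * q ^ (m - l) ≤ Nn q (dg φ ψ j p) l * q ^ (m - l) :=
        Nat.mul_le_mul_right _ hlt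
      omega
    · intro h
      refine le_trans ?_ h1
      rw [div_le_div_iff₀ (pow_pos hq0 _) (pow_pos hq0 _), hml]
      have h3 : Nn q (dg φ ψ j p) l * q ^ (m - l) ≤ Nn q (dg φ ψ j v) m :=
        (Nat.mul_le_mul_right _ (not_lt.1 h)).trans hNl.1
      have h4 : (Nn q (dg φ ψ j p) l : ℝ) * (q : ℝ) ^ (m - l) ≤ (Nn q (dg φ ψ j v) m : ℝ) := by
        exact_mod_cast h3
      calc (Nn q (dg φ ψ j p) l : ℝ) * ((q : ℝ) ^ l * (q : ℝ) ^ (m - l)) =
          ((Nn q (dg φ ψ j p) l : ℝ) * (q : ℝ) ^ (m - l)) * (q : ℝ) ^ l := by ring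
        _ ≤ _ := mul_le_mul_of_nonneg_right h4 (pow_pos hq0 _).le
  have e2 : (y < (Nn q (dg φ ψ j p) u : ℝ) / (q : ℝ) ^ u) ↔
      Nn q (dg φ ψ j v) u < Nn q (dg φ ψ j p) u := by
    constructor
    · intro h
      have h3 : (Nn q (dg φ ψ j v) m : ℝ) / (q : ℝ) ^ m <
          (Nn q (dg φ ψ j p) u : ℝ) / (q : ℝ) ^ u := h1.trans_lt h
      rw [div_lt_div_iff₀ (pow_pos hq0 _) (pow_pos hq0 _), hmu] at h3
      have h4 : (Nn q (dg φ ψ j v) m : ℝ) < (Nn q (dg φ ψ j p) u : ℝ) * (q : ℝ) ^ (m - u) := by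
        have h5 : (Nn q (dg φ ψ j v) m : ℝ) * (q : ℝ) ^ u <
            (Nn q (dg φ ψ j p) u : ℝ) * (q : ℝ) ^ (m - u) * (q : ℝ) ^ u := by
          calc _ < (Nn q (dg φ ψ j p) u : ℝ) * ((q : ℝ) ^ u * (q : ℝ) ^ (m - u)) := h3
            _ = _ := by ring
        exact lt_of_mul_lt_mul_right h5 (pow_pos hq0 _).le
      have h6 : Nn q (dg φ ψ j v) m < Nn q (dg φ ψ j p) u * q ^ (m - u) := by
        exact_mod_cast h4
      exact lt_of_mul_lt_mul_right (hNu.1.trans_lt h6) (Nat.zero_le _)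
    · intro h
      refine h2.trans_le ?_
      rw [← add_div, div_le_div_iff₀ (pow_pos hq0 _) (pow_pos hq0 _), hmu]
      have h3 : Nn q (dg φ ψ j v) m + 1 ≤ Nn q (dg φ ψ j p) u * q ^ (m - u) := by
        have h5 : (Nn q (dg φ ψ j v) u + 1) * q ^ (m - u) ≤ Nn q (dg φ ψ j p) u * q ^ (m - u) :=
          Nat.mul_le_mul_right _ h
        omega
      have h4 : (Nn q (dg φ ψ j v) m : ℝ) + 1 ≤
          (Nn q (dg φ ψ j p) u : ℝ) * (q : ℝ) ^ (m - u) := by
        exact_mod_cast h3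
      calc ((Nn q (dg φ ψ j v) m : ℝ) + 1) * (q : ℝ) ^ u ≤
          (Nn q (dg φ ψ j p) u : ℝ) * (q : ℝ) ^ (m - u) * (q : ℝ) ^ u :=
            mul_le_mul_of_nonneg_right h4 (pow_pos hq0 _).le
        _ = _ := by ring
  rw [e1, e2, Nn_lex (hd v) (hd p), Nn_lex (hd v) (hd p)]
  constructor
  · rintro ⟨h3, i, hi, h4, h5⟩
    refine ⟨i, ?_, hi, h4, h5⟩
    by_contra hcon
    exact h3 ⟨i, not_le.1 hcon, h4, h5⟩
  · rintro ⟨i, hli, hi, h4, h5⟩
    refine ⟨?_, i, hi, h4, h5⟩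
    rintro ⟨i', hi', -, h7⟩
    have := h4 i' (lt_of_lt_of_le hi' hli)
    omega

end

/-- **DN-5.** -/
theorem t_Geo : StmGeo := by
  classical
  intro F _ _ m D φ ψ x hx p l u hlu
  have hqp : 0 < Fintype.card F := Fintype.card_pos
  have hq0 : (0 : ℝ) < (Fintype.card F : ℝ) := by exact_mod_cast hqp
  refine ⟨fun j => ⟨?_, ?_, ?_⟩, ?_⟩
  · rw [tr_eq]
    exact div_nonneg (Nat.cast_nonneg _) (pow_pos hq0 _).le
  · unfold tr
    refine Finset.sum_le_sum_of_subset_of_nonneg ?_ fun i _ _ =>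
      div_nonneg (Nat.cast_nonneg _) (pow_pos hq0 _).le
    intro i hi
    rw [Finset.mem_range] at hi ⊢
    exact lt_of_lt_of_le hi (hlu j).1
  · rw [tr_eq, div_le_one (pow_pos hq0 _)]
    have := (Nn_lt hqp (dg_lt φ ψ j p) (u j)).le
    exact_mod_cast this
  · unfold cnt
    have hiff : ∀ v : Fin m → F, (∀ j, tr φ ψ j (l j) p ≤ x v j ∧ x v j < tr φ ψ j (u j) p) ↔
        ∀ j, ∃ i, l j ≤ i ∧ i < u j ∧ (∀ i' < i, φ j i' (v - p) = 0) ∧
          ψ j i (φ j i p + φ j i (v - p)) < ψ j i (φ j i p) := by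
      intro v
      refine forall_congr' fun j => ?_
      rw [one_coord φ ψ j v p (hlu j).1 (hlu j).2 (hx v j).1 (hx v j).2]
      refine exists_congr fun i => ?_
      refine and_congr_right fun _ => and_congr_right fun _ => and_congr ?_ ?_
      · refine forall_congr' fun i' => imp_congr_right fun _ => ?_
        unfold dg
        rw [map_sub, sub_eq_zero, ← Fin.ext_iff, (ψ j i').injective.eq_iff]
      · unfold dg
        rw [map_sub, add_sub_cancel, ← Fin.lt_def]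
    refine Finset.card_nbij' (fun v => v - p) (fun κ => κ + p) ?_ ?_ ?_ ?_
    · intro v hv
      rw [Finset.mem_coe, Finset.mem_filter] at hv
      rw [Finset.mem_coe, Finset.mem_filter]
      exact ⟨Finset.mem_univ _, (hiff v).1 hv.2⟩
    · intro κ hκ
      rw [Finset.mem_coe, Finset.mem_filter] at hκ
      rw [Finset.mem_coe, Finset.mem_filter]
      refine ⟨Finset.mem_univ _, (hiff _).2 ?_⟩
      rw [add_sub_cancel_right]
      exact hκ.2
    · intro v _
      exact sub_add_cancel v p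
    · intro κ _
      exact add_sub_cancel_right κ p

end Pool.Agent.Q237.DN
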