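import Mathlib
import Pool.Agent.Q71.DN.Defs

/-!
# Project DN: DN-1 (helper237)
-/

set_option autoImplicit false

namespace Pool.Agent.Q237.DN

open Finset Module Pool.Agent.Q71.DN

section

variable {F : Type} [Field F] {m D : ℕ}

/-- The linear map of the first digits. -/
def lam (φ : Rows F m D) (a : Fin (D + 2) → ℕ) : (Fin m → F) →ₗ[F] ((Σ j, Fin (a j)) → F) :=
  LinearMap.pi fun x => φ x.1 (x.2 : ℕ)

theorem lam_apply (φ : Rows F m D) (a : Fin (D + 2) → ℕ) (v : Fin m → F) (x : Σ j, Fin (a j)) :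
    lam φ a v x = φ x.1 (x.2 : ℕ) v := rfl

theorem lam_zero (φ : Rows F m D) (a : Fin (D + 2) → ℕ) (v : Fin m → F) :
    v ∈ LinearMap.ker (lam φ a) ↔ ∀ j, ∀ i < a j, φ j i v = 0 := by
  rw [LinearMap.mem_ker]
  constructor
  · intro h j i hi
    have := congrFun h ⟨j, ⟨i, hi⟩⟩
    exact this
  · intro h
    funext x
    exact h x.1 _ x.2.2

theorem lam_sur (φ : Rows F m D) (a : Fin (D + 2) → ℕ) :
    Function.Surjective (lam φ a) ↔
      LinearIndependent F (fun x : (Σ j, Fin (a j)) => φ x.1 (x.2 : ℕ)) := by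
  classical
  rw [Fintype.linearIndependent_iff]
  constructor
  · intro h g hg y
    obtain ⟨v, hv⟩ := h (Pi.single y 1)
    have h1 := congrArg (fun f : (Fin m → F) →ₗ[F] F => f v) hg
    simp only [LinearMap.sum_apply, LinearMap.smul_apply, LinearMap.zero_apply] at h1
    rw [Finset.sum_eq_single y] at h1
    · have h2 : φ y.1 (y.2 : ℕ) v = 1 := by
        rw [← lam_apply φ a v y, hv, Pi.single_eq_same]
      rwa [h2, smul_eq_mul, mul_one] at h1
    · intro x _ hx
      rw [← lam_apply φ a v x, hv, Pi.single_eq_of_ne hx, smul_zero]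
    · intro hy
      exact absurd (Finset.mem_univ _) hy
  · intro h
    rw [← LinearMap.dualMap_injective_iff, injective_iff_map_eq_zero]
    intro g hg
    have h1 : ∑ x : (Σ j, Fin (a j)), g (Pi.single x 1) • φ x.1 (x.2 : ℕ) = 0 := by
      ext v
      have h2 := congrArg (fun f : Module.Dual F (Fin m → F) => f (Pi.single v 1)) hg
      simp only [LinearMap.dualMap_apply, LinearMap.zero_apply] at h2
      rw [LinearMap.comp_apply, LinearMap.comp_apply, LinearMap.zero_apply, LinearMap.sum_apply]
      simp only [LinearMap.smul_apply]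
      rw [LinearMap.single_apply]
      have h3 : lam φ a (Pi.single v 1) = ∑ x : (Σ j, Fin (a j)),
          (φ x.1 (x.2 : ℕ) (Pi.single v 1)) • (Pi.single x (1 : F) : (Σ j, Fin (a j)) → F) := by
        funext y
        rw [Finset.sum_apply, Finset.sum_eq_single y]
        · rw [Pi.smul_apply, Pi.single_eq_same, smul_eq_mul, mul_one]
          rfl
        · intro x _ hx
          rw [Pi.smul_apply, Pi.single_eq_of_ne (Ne.symm hx), smul_zero]
        · intro hy
          exact absurd (Finset.mem_univ _) hy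
      rw [h3, map_sum] at h2
      rw [← h2]
      refine Finset.sum_congr rfl fun x _ => ?_
      rw [map_smul, smul_eq_mul, smul_eq_mul, mul_comm]
    have h4 := h _ h1
    refine LinearMap.pi_ext' fun x => ?_
    ext
    rw [LinearMap.comp_apply, LinearMap.comp_apply, LinearMap.single_apply, h4 x,
      LinearMap.zero_apply]

theorem kk_eq [Fintype F] (φ : Rows F m D) (a : Fin (D + 2) → ℕ) :
    kk φ a = Fintype.card F ^ (finrank F (LinearMap.ker (lam φ a))) := by
  classical
  have h1 : kk φ a = Fintype.card (LinearMap.ker (lam φ a)) := by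
    unfold kk
    rw [Fintype.card_subtype]
    congr 1
    ext v
    rw [Finset.mem_filter, Finset.mem_filter, lam_zero]
  rw [h1, Module.card_eq_pow_finrank (K := F)]

end

/-- **DN-1.** -/
theorem t_KK : StmKK := by
  intro F _ _ m D φ a
  have hq : 1 ≤ Fintype.card F := Fintype.card_pos
  have hqr : (1 : ℝ) ≤ (Fintype.card F : ℝ) := by exact_mod_cast hq
  have hq0 : (0 : ℝ) < (Fintype.card F : ℝ) := by linarith
  have hrk := LinearMap.finrank_range_add_finrank_ker (lam φ a)
  rw [finrank_fintype_fun_eq_card, Fintype.card_fin] at hrk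
  have hcard : finrank F ((Σ j, Fin (a j)) → F) = ∑ j, a j := by
    rw [finrank_fintype_fun_eq_card, Fintype.card_sigma]
    simp only [Fintype.card_fin]
  have hle : finrank F (LinearMap.range (lam φ a)) ≤ ∑ j, a j := by
    rw [← hcard]
    exact Submodule.finrank_le _
  have hiff : finrank F (LinearMap.range (lam φ a)) = ∑ j, a j ↔
      LinearIndependent F (fun x : (Σ j, Fin (a j)) => φ x.1 (x.2 : ℕ)) := by
    rw [← lam_sur, ← LinearMap.range_eq_top, ← hcard]
    constructor
    · intro h
      exact Submodule.eq_top_of_finrank_eq h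
    · intro h
      rw [h, finrank_top]
  obtain ⟨k, hk⟩ : ∃ k, k = finrank F (LinearMap.ker (lam φ a)) := ⟨_, rfl⟩
  obtain ⟨r, hr⟩ : ∃ r, r = finrank F (LinearMap.range (lam φ a)) := ⟨_, rfl⟩
  rw [← hk, ← hr] at hrk
  rw [← hr] at hle hiff
  have hkk : kk φ a = Fintype.card F ^ k := by rw [hk]; exact kk_eq φ a
  refine ⟨?_, ?_, ?_⟩
  · unfold GG
    rw [hkk, sub_nonneg, div_le_iff₀ (pow_pos hq0 _)]
    push_cast
    rw [← hrk, pow_add, mul_comm]
    exact mul_le_mul_of_nonneg_left (pow_le_pow_right₀ hqr hle) (pow_nonneg hq0.le _)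
  · intro t ht hs
    have h1 := hiff.2 (ht a hs)
    unfold GG
    rw [hkk, sub_eq_zero, eq_div_iff (pow_pos hq0 _).ne']
    push_cast
    rw [← hrk, ← h1, pow_add, mul_comm]
  · intro hs hni
    have h1 : r ≠ ∑ j, a j := fun h => hni (hiff.1 h)
    rw [hkk]
    exact Nat.pow_le_pow_right hq (by omega)

end Pool.Agent.Q237.DN
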